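import Pool.Agent.H.MP_cab928_co.Main

namespace Pool.Agent.Results.MP_cab928_co.Inequality

open Pool.Agent.H.MP_cab928_co

theorem result (V : Type) [Fintype V] [DecidableEq V] (t q i : ℕ) (hi : 1 ≤ i) (hiq : i < q)
    (hqt : q ≤ t) (H : Finset (Finset V)) (hH : ∀ e ∈ H, e.card = q) :
    (∃ x : Finset V → ℝ, ∀ I : Finset V, I.card = i →
      (q : ℝ) - 1 ≤ x I ∧ (deg H I : ℝ) = rch (x I - i) (q - i)) ∧
    ∀ x : Finset V → ℝ, (∀ I : Finset V, I.card = i →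
      (q : ℝ) - 1 ≤ x I ∧ (deg H I : ℝ) = rch (x I - i) (q - i)) →
      ∑ T ∈ cliques H q t, 1 / rch (sSup (x '' {I | I ⊆ T ∧ I.card = i}) - q) (t - q) ≤
        (H.card : ℝ) / t.choose q := by
  obtain ⟨r, rfl⟩ : ∃ r, q = i + r := ⟨q - i, by omega⟩
  obtain ⟨k, rfl⟩ : ∃ k, t = i + r + k := ⟨t - (i + r), by omega⟩
  rw [Nat.add_sub_cancel_left, Nat.add_sub_cancel_left]
  refine ⟨?_, fun x hx => main i r k (by omega) H hH x hx⟩
  choose x hx using fun I : Finset V => exists_root i r (deg H I) (by omega)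
  exact ⟨x, fun I _ => hx I⟩

end Pool.Agent.Results.MP_cab928_co.Inequality
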